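import Mathlib

/-!
# The approximate node: identities; conics over finite fields
-/

set_option autoImplicit false
set_option linter.all false

open Polynomial

namespace Pool.Agent.K4H12.M53

theorem node_id {k : Type} [Field k] [CharZero k] {a1 a2 a3 a4 a6 b2 b4 b6 c4 c6 D x0 y0 : k}
    (hb2 : b2 = a1 ^ 2 + 4 * a2) (hb4 : b4 = 2 * a4 + a1 * a3) (hb6 : b6 = a3 ^ 2 + 4 * a6)
    (hc4 : c4 = b2 ^ 2 - 24 * b4) (hc6 : c6 = -b2 ^ 3 + 36 * b2 * b4 - 216 * b6)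
    (hD : 4 * D = -b2 ^ 2 * (b2 * b6 - b4 ^ 2) - 32 * b4 ^ 3 - 108 * b6 ^ 2 + 36 * b2 * b4 * b6)
    (hx : c4 * x0 = 18 * b6 - b2 * b4)
    (hy : c4 * y0 = (3 * x0 ^ 2 + 2 * a2 * x0 + a4) * (a1 * b2) -
      (a1 * x0 + a3) * (2 * a2 * b2 - 12 * b4)) :
    c4 ^ 3 * (2 * y0 + a1 * x0 + a3) = -72 * a1 * b2 * D ∧
    c4 ^ 3 * (a1 * y0 - (3 * x0 ^ 2 + 2 * a2 * x0 + a4)) = 72 * (2 * a2 * b2 - 12 * b4) * D ∧
    c4 ^ 6 * (y0 ^ 2 + a1 * x0 * y0 + a3 * y0 - (x0 ^ 3 + a2 * x0 ^ 2 + a4 * x0 + a6)) =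
      -c6 * c4 ^ 3 * D + 1296 * a1 ^ 2 * b2 ^ 2 * D ^ 2 ∧
    c4 * (12 * x0 + b2) = -c6 ∧ c6 ^ 2 = c4 ^ 3 - 1728 * D := by
  have hg : c4 ^ 2 * (6 * x0 ^ 2 + b2 * x0 + b4) = -72 * D := by
    have e : c4 ^ 2 * (6 * x0 ^ 2 + b2 * x0 + b4) =
        6 * (18 * b6 - b2 * b4) ^ 2 + b2 * c4 * (18 * b6 - b2 * b4) + b4 * c4 ^ 2 := by
      linear_combination (6 * (c4 * x0 + (18 * b6 - b2 * b4)) + b2 * c4) * hx
    rw [e, hc4]
    linear_combination 18 * hD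
  have h2 : c4 * (2 * y0 + a1 * x0 + a3) = a1 * b2 * (6 * x0 ^ 2 + b2 * x0 + b4) := by
    have e : c4 * (2 * y0 + a1 * x0 + a3) = 2 * (c4 * y0) + c4 * (a1 * x0 + a3) := by ring
    rw [e, hy, hc4, hb4, hb2]
    ring
  have h3 : c4 * (a1 * y0 - (3 * x0 ^ 2 + 2 * a2 * x0 + a4)) =
      -(2 * a2 * b2 - 12 * b4) * (6 * x0 ^ 2 + b2 * x0 + b4) := by
    have e : c4 * (a1 * y0 - (3 * x0 ^ 2 + 2 * a2 * x0 + a4)) =
      a1 * (c4 * y0) - c4 * (3 * x0 ^ 2 + 2 * a2 * x0 + a4) := by ring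
    rw [e, hy, hc4, hb4, hb2]
    ring
  have h4 : c4 * (12 * x0 + b2) = -c6 := by
    have e : c4 * (12 * x0 + b2) = 12 * (c4 * x0) + b2 * c4 := by ring
    rw [e, hx, hc4, hc6]
    ring
  have h5 : 18 * (4 * x0 ^ 3 + b2 * x0 ^ 2 + 2 * b4 * x0 + b6) =
      (12 * x0 + b2) * (6 * x0 ^ 2 + b2 * x0 + b4) := by
    have e : 18 * (4 * x0 ^ 3 + b2 * x0 ^ 2 + 2 * b4 * x0 + b6) =
      (12 * x0 + b2) * (6 * x0 ^ 2 + b2 * x0 + b4) - (c4 * x0 - (18 * b6 - b2 * b4)) := by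
      rw [hc4]; ring
    rw [e, hx]; ring
  have h6 : c4 ^ 3 * (4 * x0 ^ 3 + b2 * x0 ^ 2 + 2 * b4 * x0 + b6) = 4 * c6 * D := by
    have h18 : (18 : k) ≠ 0 := by norm_num
    apply mul_left_cancel₀ h18
    have e : 18 * (c4 ^ 3 * (4 * x0 ^ 3 + b2 * x0 ^ 2 + 2 * b4 * x0 + b6)) =
      c4 ^ 3 * (18 * (4 * x0 ^ 3 + b2 * x0 ^ 2 + 2 * b4 * x0 + b6)) := by ring
    have e2 : c4 ^ 3 * ((12 * x0 + b2) * (6 * x0 ^ 2 + b2 * x0 + b4)) =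
      (c4 * (12 * x0 + b2)) * (c4 ^ 2 * (6 * x0 ^ 2 + b2 * x0 + b4)) := by ring
    rw [e, h5, e2, h4, hg]
    ring
  have h7 : c4 ^ 3 * (2 * y0 + a1 * x0 + a3) = -72 * a1 * b2 * D := by
    have e : c4 ^ 3 * (2 * y0 + a1 * x0 + a3) = c4 ^ 2 * (c4 * (2 * y0 + a1 * x0 + a3)) := by ring
    have e2 : c4 ^ 2 * (a1 * b2 * (6 * x0 ^ 2 + b2 * x0 + b4)) =
      a1 * b2 * (c4 ^ 2 * (6 * x0 ^ 2 + b2 * x0 + b4)) := by ring
    rw [e, h2, e2, hg]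
    ring
  refine ⟨h7, ?_, ?_, h4, ?_⟩
  · have e : c4 ^ 3 * (a1 * y0 - (3 * x0 ^ 2 + 2 * a2 * x0 + a4)) =
      c4 ^ 2 * (c4 * (a1 * y0 - (3 * x0 ^ 2 + 2 * a2 * x0 + a4))) := by ring
    have e2 : c4 ^ 2 * (-(2 * a2 * b2 - 12 * b4) * (6 * x0 ^ 2 + b2 * x0 + b4)) =
      -(2 * a2 * b2 - 12 * b4) * (c4 ^ 2 * (6 * x0 ^ 2 + b2 * x0 + b4)) := by ring
    rw [e, h3, e2, hg]
    ring
  · have h44 : (4 : k) ≠ 0 := by norm_num
    apply mul_left_cancel₀ h44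
    have e : 4 * (c4 ^ 6 * (y0 ^ 2 + a1 * x0 * y0 + a3 * y0 - (x0 ^ 3 + a2 * x0 ^ 2 + a4 * x0 + a6))) =
      (c4 ^ 3 * (2 * y0 + a1 * x0 + a3)) ^ 2 -
        c4 ^ 3 * (c4 ^ 3 * (4 * x0 ^ 3 + b2 * x0 ^ 2 + 2 * b4 * x0 + b6)) := by
      rw [hb2, hb4, hb6]; ring
    rw [e, h7, h6]
    ring
  · rw [hc4, hc6]
    linear_combination 432 * hD

/-- a nondegenerate binary quadratic form over a finite field represents every element -/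
theorem conic {F : Type} [Field F] [Finite F] (a c u : F) (hD : a ^ 2 + 4 * c ≠ 0) (hu : u ≠ 0) :
    ∃ X Y : F, Y ^ 2 + a * X * Y - c * X ^ 2 + u = 0 ∧ (2 * Y + a * X ≠ 0 ∨ a * Y - 2 * c * X ≠ 0) := by
  haveI := Fintype.ofFinite F
  suffices h : ∃ X Y : F, Y ^ 2 + a * X * Y - c * X ^ 2 + u = 0 by
    obtain ⟨X, Y, e⟩ := h
    refine ⟨X, Y, e, ?_⟩
    by_contra hcon
    push Not at hcon
    obtain ⟨h1, h2⟩ := hcon
    have hX : X = 0 := by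
      have : (a ^ 2 + 4 * c) * X = 0 := by linear_combination a * h1 - 2 * h2
      exact (mul_eq_zero.1 this).resolve_left hD
    have hY : Y = 0 := by
      have : (a ^ 2 + 4 * c) * Y = 0 := by linear_combination a * h2 + 2 * c * h1
      exact (mul_eq_zero.1 this).resolve_left hD
    rw [hX, hY] at e
    apply hu
    linear_combination e
  by_cases h2 : ringChar F = 2
  · obtain ⟨r, hr⟩ := FiniteField.isSquare_of_char_two h2 (-u)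
    refine ⟨0, r, ?_⟩
    linear_combination -hr
  · have h2' : (2 : F) ≠ 0 := Ring.two_ne_zero h2
    have hodd : Fintype.card F % 2 = 1 := FiniteField.odd_card_of_char_ne_two h2
    obtain ⟨z, X, h3⟩ := FiniteField.exists_root_sum_quadratic (R := F)
      (f := Polynomial.X ^ 2) (g := C (-(a ^ 2 + 4 * c)) * Polynomial.X ^ 2 + C (4 * u)) (by
        simp) (by
        have h4 : -(a ^ 2 + 4 * c) ≠ 0 := neg_ne_zero.2 hD
        compute_degree!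
        intro h5; apply h4; linear_combination h5) hodd
    simp only [eval_pow, eval_X, eval_add, eval_mul, eval_C] at h3
    refine ⟨X, (z - a * X) / 2, ?_⟩
    have h4 : (4 : F) ≠ 0 := by
      have : (4 : F) = 2 * 2 := by norm_num
      rw [this]; exact mul_ne_zero h2' h2'
    apply mul_left_cancel₀ h4
    field_simp
    linear_combination h3

end Pool.Agent.K4H12.M53
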