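import Mathlib
import Pool.Agent.K4H53.BSD.Red3
import Pool.Agent.K4H12.M53.Alg

/-!
# A point of order two in the group of components (multiplicative reduction, even discriminant)
-/

set_option autoImplicit false
set_option linter.all false

open WeierstrassCurve WeierstrassCurve.Affine
open scoped NNReal Classical

namespace Pool.Agent.K4H12.M53

open Pool.Agent.K4H53.BSD

variable {k : Type} [Field k] {w : Valuation k ℝ≥0} {W : WeierstrassCurve ℤ}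

theorem w_lt1 {x y : k} (hx : w x < 1) (hy : w y ≤ 1) : w (x * y) < 1 := by
  rw [map_mul]
  exact (mul_le_of_le_one_right' hy).trans_lt hx

theorem w_unit_add {x y : k} (hx : w x = 1) (hy : w y < 1) : w (x + y) = 1 := by
  rw [Valuation.map_add_eq_of_lt_left, hx]
  rw [hx]; exact hy

theorem ex_pt0 {x0 y0 π u al be X Y : k}
    (hπ : w π < 1) (hπ0 : π ≠ 0) (hW : (W.Δ : k) ≠ 0) (ix0 : w x0 ≤ 1) (iy0 : w y0 ≤ 1)
    (hFx : (W.a₁ : k) * y0 - (3 * x0 ^ 2 + 2 * W.a₂ * x0 + W.a₄) = π ^ 2 * al)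
    (hFy : 2 * y0 + W.a₁ * x0 + W.a₃ = π ^ 2 * be)
    (hF : y0 ^ 2 + W.a₁ * x0 * y0 + W.a₃ * y0 - (x0 ^ 3 + W.a₂ * x0 ^ 2 + W.a₄ * x0 + W.a₆) =
      π ^ 2 * u)
    (ial : w al ≤ 1) (ibe : w be ≤ 1) (iu : w u = 1) (iD : w (12 * x0 + (W.b₂ : k)) = 1)
    (ic4 : w (W.c₄ : k) = 1) (hx0 : (W.c₄ : k) * x0 = 18 * W.b₆ - W.b₂ * W.b₄)
    (iX : w X ≤ 1) (iY : w Y ≤ 1)
    (hE : Y ^ 2 + W.a₁ * X * Y - (3 * x0 + W.a₂) * X ^ 2 + u + π * (al * X + be * Y - X ^ 3) = 0) :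
    ∃ P : (bs W k).toAffine.Point, ¬ In0 w P ∧ In0 w (P + P) := by
  have b1 : w ((W.a₁ : ℤ) : k) ≤ 1 := w_int w _
  have b2 : w ((W.a₂ : ℤ) : k) ≤ 1 := w_int w _
  have b3 : w ((W.a₃ : ℤ) : k) ≤ 1 := w_int w _
  have b4 : w ((W.a₄ : ℤ) : k) ≤ 1 := w_int w _
  have B2 : w ((W.b₂ : ℤ) : k) ≤ 1 := w_int w _
  have n2 : w (2 : k) ≤ 1 := w_two w
  have n3 : w (3 : k) ≤ 1 := w_three w
  have n12 : w (12 : k) ≤ 1 := by exact_mod_cast w_nat w 12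
  have n18 : w (18 : k) ≤ 1 := by exact_mod_cast w_nat w 18
  have c2 : (W.b₂ : k) = W.a₁ ^ 2 + 4 * W.a₂ := by rw [WeierstrassCurve.b₂]; push_cast; ring
  have c4 : (W.b₄ : k) = 2 * W.a₄ + W.a₁ * W.a₃ := by rw [WeierstrassCurve.b₄]; push_cast; ring
  have c6 : (W.b₆ : k) = W.a₃ ^ 2 + 4 * W.a₆ := by rw [WeierstrassCurve.b₆]; push_cast; ring
  have cc4 : (W.c₄ : k) = W.b₂ ^ 2 - 24 * W.b₄ := by rw [WeierstrassCurve.c₄]; push_cast; ring
  set x : k := x0 + π * X with hx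
  set y : k := y0 + π * Y with hy
  have ix : w x ≤ 1 := w_add ix0 (w_mul hπ.le iX)
  have iy : w y ≤ 1 := w_add iy0 (w_mul hπ.le iY)
  have heq : (bs W k).toAffine.Equation x y := by
    rw [Affine.equation_iff, a1, a2, a3, a4, a6]
    rw [hx, hy]
    linear_combination hF + π * X * hFx + π * Y * hFy + π ^ 2 * hE
  have hns : (bs W k).toAffine.Nonsingular x y := by
    rw [← Affine.equation_iff_nonsingular_of_Δ_ne_zero]
    · exact heq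
    · show ((W.map (Int.castRingHom k)).Δ) ≠ 0
      rw [map_Δ]; exact hW
  set p : k := 2 * Y + W.a₁ * X + π * be with hp
  set q : k := W.a₁ * Y - 2 * (3 * x0 + W.a₂) * X + π * al - 3 * π * X ^ 2 with hq
  have fy : 2 * y + W.a₁ * x + W.a₃ = π * p := by
    rw [hx, hy, hp]
    linear_combination hFy
  have fx : (W.a₁ : k) * y - (3 * x ^ 2 + 2 * W.a₂ * x + W.a₄) = π * q := by
    rw [hx, hy, hq]
    linear_combination hFx
  have ic : w (3 * x0 + W.a₂) ≤ 1 := w_add (w_mul n3 ix0) b2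
  have ip : w p ≤ 1 := w_add (w_add (w_mul n2 iY) (w_mul b1 iX)) (w_mul hπ.le ibe)
  have iq : w q ≤ 1 := w_sub (w_add (w_sub (w_mul b1 iY) (w_mul (w_mul n2 ic) iX))
    (w_mul hπ.le ial)) (w_mul (w_mul n3 hπ.le) (w_pow iX 2))
  refine ⟨Point.some x y hns, ?_, ?_⟩
  · intro h
    rcases h x y hns rfl with h1 | h1 | h1
    · exact absurd h1 (not_lt.2 ix)
    · rw [fx] at h1
      exact absurd h1 (w_lt1 hπ iq).ne
    · rw [fy] at h1
      exact absurd h1 (w_lt1 hπ ip).ne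
  · by_cases hneg : y = (bs W k).toAffine.negY x y
    · rw [Point.add_of_Y_eq rfl hneg]; exact In0.zero
    have hxy : ¬(x = x ∧ y = (bs W k).toAffine.negY x y) := fun h => hneg h.2
    rw [Point.add_some hxy]
    intro x' y' h' he
    obtain ⟨e1, e2⟩ := Point.some.inj he
    obtain ⟨-, s2⟩ := slope_rel hns.1 hns.1 hxy
    set l := (bs W k).toAffine.slope x x y y with hl
    have hlp : l * p = -q := by
      apply mul_left_cancel₀ hπ0
      linear_combination s2 - l * fy - fx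
    rw [addX_eq] at e1
    set al' : k := al - 3 * X ^ 2 with hal'
    have ial' : w al' ≤ 1 := w_sub ial (w_mul n3 (w_pow iX 2))
    set R : k := (12 * x0 + (W.b₂ : k)) * (al * X + be * Y - X ^ 3) +
      (2 * (W.a₁ * Y - 2 * (3 * x0 + W.a₂) * X) * al' + π * al' ^ 2) -
      W.a₁ * ((2 * Y + W.a₁ * X) * al' + (W.a₁ * Y - 2 * (3 * x0 + W.a₂) * X) * be + π * (be * al')) -
      (3 * x0 + W.a₂) * (2 * (2 * Y + W.a₁ * X) * be + π * be ^ 2) - 2 * X * p ^ 2 with hR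
    have key : p ^ 2 * (x' - x0) = (12 * x0 + (W.b₂ : k)) * u + π * R := by
      have e3 : p ^ 2 * (x' - x0) = (l * p) ^ 2 + W.a₁ * (l * p) * p -
          p ^ 2 * (W.a₂ + 3 * x0 + 2 * π * X) := by
        rw [← e1, hx]; ring
      rw [e3, hlp, hR, hq, hp, hal', c2]
      linear_combination (-(12 * x0 + ((W.a₁ : k) ^ 2 + 4 * W.a₂))) * hE
    have iR : w R ≤ 1 := by
      have i1 : w (2 * Y + W.a₁ * X) ≤ 1 := w_add (w_mul n2 iY) (w_mul b1 iX)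
      have i2 : w (W.a₁ * Y - 2 * (3 * x0 + W.a₂) * X) ≤ 1 :=
        w_sub (w_mul b1 iY) (w_mul (w_mul n2 ic) iX)
      rw [hR]
      refine w_sub (w_sub (w_sub (w_add ?_ ?_) ?_) ?_) ?_
      · exact w_mul iD.le (w_sub (w_add (w_mul ial iX) (w_mul ibe iY)) (w_pow iX 3))
      · exact w_add (w_mul (w_mul n2 i2) ial') (w_mul hπ.le (w_pow ial' 2))
      · exact w_mul b1 (w_add (w_add (w_mul i1 ial') (w_mul i2 ibe))
          (w_mul hπ.le (w_mul ibe ial')))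
      · exact w_mul ic (w_add (w_mul (w_mul n2 i1) ibe) (w_mul hπ.le (w_pow ibe 2)))
      · exact w_mul (w_mul n2 iX) (w_pow ip 2)
    have hun : w (p ^ 2 * (x' - x0)) = 1 := by
      rw [key]
      apply w_unit_add
      · rw [map_mul, iD, iu, one_mul]
      · exact w_lt1 hπ iR
    have hge : ¬ w (x' - x0) < 1 := by
      intro hlt
      have : w (p ^ 2 * (x' - x0)) < 1 := by
        rw [mul_comm]
        exact w_lt1 hlt (w_pow ip 2)
      exact absurd hun this.ne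
    by_contra hcon
    push Not at hcon
    obtain ⟨h1, h2, h3⟩ := hcon
    have iy' : w y' ≤ 1 := w_y h'.1 h1
    have f1 : w ((W.a₁ : k) * y' - (3 * x' ^ 2 + 2 * W.a₂ * x' + W.a₄)) < 1 :=
      lt_of_le_of_ne (w_sub (w_mul b1 iy') (w_add (w_add (w_mul n3 (w_pow h1 2))
        (w_mul (w_mul n2 b2) h1)) b4)) h2
    have f2 : w (2 * y' + W.a₁ * x' + W.a₃) < 1 :=
      lt_of_le_of_ne (w_add (w_add (w_mul n2 iy') (w_mul b1 h1)) b3) h3
    have eq' := eqn h'.1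
    have key2 : (W.c₄ : k) * (x' - x0) = (12 * x' + W.b₂) * (W.a₁ * (2 * y' + W.a₁ * x' + W.a₃) -
        2 * ((W.a₁ : k) * y' - (3 * x' ^ 2 + 2 * W.a₂ * x' + W.a₄))) -
        18 * (2 * y' + W.a₁ * x' + W.a₃) ^ 2 := by
      rw [mul_sub, hx0, cc4, c6, c4, c2]
      linear_combination 72 * eq'
    have h5 : w ((W.c₄ : k) * (x' - x0)) < 1 := by
      rw [key2]
      refine (Valuation.map_sub _ _ _).trans_lt (max_lt ?_ ?_)
      · rw [mul_comm]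
        refine w_lt1 ?_ (w_add (w_mul n12 h1) B2)
        refine (Valuation.map_sub _ _ _).trans_lt (max_lt ?_ ?_)
        · rw [mul_comm]; exact w_lt1 f2 b1
        · rw [mul_comm]; exact w_lt1 f1 n2
      · rw [mul_comm, pow_two, mul_assoc]
        exact w_lt1 f2 (w_mul f2.le n18)
    apply hge
    rwa [map_mul, ic4, one_mul] at h5

/-- the approximate node and the point -/
theorem ex_pt [CharZero k] {π : k} (hπ : w π < 1) (hπ0 : π ≠ 0) (hΔ : w (W.Δ : k) = w π ^ 2)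
    (ic4 : w (W.c₄ : k) = 1)
    (hsol : ∀ a c u al be : k, w a ≤ 1 → w c ≤ 1 → w u = 1 → w al ≤ 1 → w be ≤ 1 →
      w (a ^ 2 + 4 * c) = 1 → ∃ X Y : k, w X ≤ 1 ∧ w Y ≤ 1 ∧
        Y ^ 2 + a * X * Y - c * X ^ 2 + u + π * (al * X + be * Y - X ^ 3) = 0) :
    ∃ P : (bs W k).toAffine.Point, ¬ In0 w P ∧ In0 w (P + P) := by
  have hwπ : w π ≠ 0 := (Valuation.ne_zero_iff _).2 hπ0
  have hW : (W.Δ : k) ≠ 0 := by
    intro h
    rw [h, map_zero] at hΔ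
    exact pow_ne_zero 2 hwπ hΔ.symm
  have h40 : (W.c₄ : k) ≠ 0 := by
    intro h
    rw [h, map_zero] at ic4
    exact zero_ne_one ic4
  have b1 : w ((W.a₁ : ℤ) : k) ≤ 1 := w_int w _
  have b2 : w ((W.a₂ : ℤ) : k) ≤ 1 := w_int w _
  have b3 : w ((W.a₃ : ℤ) : k) ≤ 1 := w_int w _
  have b4 : w ((W.a₄ : ℤ) : k) ≤ 1 := w_int w _
  have B2 : w ((W.b₂ : ℤ) : k) ≤ 1 := w_int w _
  have B4 : w ((W.b₄ : ℤ) : k) ≤ 1 := w_int w _
  have B6 : w ((W.b₆ : ℤ) : k) ≤ 1 := w_int w _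
  have iC6 : w ((W.c₆ : ℤ) : k) ≤ 1 := w_int w _
  have nn : ∀ n : ℕ, w (n : k) ≤ 1 := w_nat w
  have n2 : w (2 : k) ≤ 1 := w_two w
  have n3 : w (3 : k) ≤ 1 := w_three w
  have n12 : w (12 : k) ≤ 1 := by exact_mod_cast nn 12
  have n18 : w (18 : k) ≤ 1 := by exact_mod_cast nn 18
  have n72 : w (72 : k) ≤ 1 := by exact_mod_cast nn 72
  have n1296 : w (1296 : k) ≤ 1 := by exact_mod_cast nn 1296
  have n1728 : w (1728 : k) ≤ 1 := by exact_mod_cast nn 1728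
  have c2 : (W.b₂ : k) = W.a₁ ^ 2 + 4 * W.a₂ := by rw [WeierstrassCurve.b₂]; push_cast; ring
  have c4 : (W.b₄ : k) = 2 * W.a₄ + W.a₁ * W.a₃ := by rw [WeierstrassCurve.b₄]; push_cast; ring
  have c6 : (W.b₆ : k) = W.a₃ ^ 2 + 4 * W.a₆ := by rw [WeierstrassCurve.b₆]; push_cast; ring
  have cc4 : (W.c₄ : k) = W.b₂ ^ 2 - 24 * W.b₄ := by rw [WeierstrassCurve.c₄]; push_cast; ring
  have cc6 : (W.c₆ : k) = -W.b₂ ^ 3 + 36 * W.b₂ * W.b₄ - 216 * W.b₆ := by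
    rw [WeierstrassCurve.c₆]; push_cast; ring
  have cΔ : 4 * (W.Δ : k) = -(W.b₂ : k) ^ 2 * (W.b₂ * W.b₆ - W.b₄ ^ 2) - 32 * (W.b₄ : k) ^ 3 -
      108 * (W.b₆ : k) ^ 2 + 36 * (W.b₂ : k) * W.b₄ * W.b₆ := by
    have h8 : 4 * (W.b₈ : k) = W.b₂ * W.b₆ - W.b₄ ^ 2 := by
      have := W.b_relation
      have h9 := congrArg (fun n : ℤ => (n : k)) this
      push_cast at h9
      exact h9
    rw [WeierstrassCurve.Δ]
    push_cast
    linear_combination (-(W.b₂ : k) ^ 2) * h8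
  set x0 : k := (18 * W.b₆ - W.b₂ * W.b₄) / W.c₄ with hx0
  have hx : (W.c₄ : k) * x0 = 18 * W.b₆ - W.b₂ * W.b₄ := by
    rw [hx0]; field_simp
  set y0 : k := ((3 * x0 ^ 2 + 2 * W.a₂ * x0 + W.a₄) * (W.a₁ * W.b₂) -
      (W.a₁ * x0 + W.a₃) * (2 * W.a₂ * W.b₂ - 12 * W.b₄)) / W.c₄ with hy0
  have hy : (W.c₄ : k) * y0 = (3 * x0 ^ 2 + 2 * W.a₂ * x0 + W.a₄) * (W.a₁ * W.b₂) -
      (W.a₁ * x0 + W.a₃) * (2 * W.a₂ * W.b₂ - 12 * W.b₄) := by
    rw [hy0]; field_simp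
  obtain ⟨g1, g2, g3, g4, g5⟩ := node_id c2 c4 c6 cc4 cc6 cΔ hx hy
  have ix0 : w x0 ≤ 1 := by
    rw [hx0]
    exact w_div (w_sub (w_mul n18 B6) (w_mul B2 B4)) ic4
  have iy0 : w y0 ≤ 1 := by
    rw [hy0]
    exact w_div (w_sub (w_mul (w_add (w_add (w_mul n3 (w_pow ix0 2)) (w_mul (w_mul n2 b2) ix0)) b4)
      (w_mul b1 B2)) (w_mul (w_add (w_mul b1 ix0) b3) (w_sub (w_mul (w_mul n2 b2) B2)
        (w_mul n12 B4)))) ic4
  have iΔ : w (W.Δ : k) < 1 := by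
    rw [hΔ]; exact pow_lt_one₀ zero_le hπ two_ne_zero
  set δ : k := (W.Δ : k) / π ^ 2 with hδ
  have iδ : w δ = 1 := by
    rw [hδ, map_div₀, map_pow, hΔ, div_self (pow_ne_zero 2 hwπ)]
  have hδ' : (W.Δ : k) = π ^ 2 * δ := by
    rw [hδ]; field_simp
  have ic43 : w ((W.c₄ : k) ^ 3) = 1 := by rw [map_pow, ic4, one_pow]
  have ic46 : w ((W.c₄ : k) ^ 6) = 1 := by rw [map_pow, ic4, one_pow]
  have ic6 : w (W.c₆ : k) = 1 := by
    have h1 : w ((W.c₆ : k) ^ 2) = 1 := by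
      rw [g5, sub_eq_add_neg]
      apply w_unit_add ic43
      rw [Valuation.map_neg, mul_comm]
      exact w_lt1 iΔ n1728
    rw [map_pow] at h1
    exact (pow_eq_one_iff_of_nonneg zero_le two_ne_zero).1 h1
  have iD : w (12 * x0 + (W.b₂ : k)) = 1 := by
    have h1 := congrArg w g4
    rw [map_mul, ic4, one_mul, Valuation.map_neg, ic6] at h1
    exact h1
  set al : k := 72 * (2 * W.a₂ * W.b₂ - 12 * W.b₄) * δ / W.c₄ ^ 3 with hal
  set be : k := -72 * W.a₁ * W.b₂ * δ / W.c₄ ^ 3 with hbe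
  set u : k := (-W.c₆ * W.c₄ ^ 3 + 1296 * W.a₁ ^ 2 * W.b₂ ^ 2 * W.Δ) * δ / W.c₄ ^ 6 with hu
  have ial : w al ≤ 1 := by
    rw [hal]
    exact w_div (w_mul (w_mul n72 (w_sub (w_mul (w_mul n2 b2) B2) (w_mul n12 B4))) iδ.le) ic43
  have ibe : w be ≤ 1 := by
    rw [hbe]
    exact w_div (w_mul (w_mul (w_mul (w_neg n72) b1) B2) iδ.le) ic43
  have iu : w u = 1 := by
    rw [hu, map_div₀, ic46, div_one, map_mul, iδ, mul_one]
    apply w_unit_add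
    · rw [map_mul, Valuation.map_neg, ic6, ic43, one_mul]
    · rw [mul_comm]
      exact w_lt1 iΔ (w_mul (w_mul n1296 (w_pow b1 2)) (w_pow B2 2))
  have c43 : (W.c₄ : k) ^ 3 ≠ 0 := pow_ne_zero 3 h40
  have c46 : (W.c₄ : k) ^ 6 ≠ 0 := pow_ne_zero 6 h40
  have hFx : (W.a₁ : k) * y0 - (3 * x0 ^ 2 + 2 * W.a₂ * x0 + W.a₄) = π ^ 2 * al := by
    apply mul_left_cancel₀ c43
    rw [g2, hal, hδ']
    field_simp
  have hFy : 2 * y0 + W.a₁ * x0 + W.a₃ = π ^ 2 * be := by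
    apply mul_left_cancel₀ c43
    rw [g1, hbe, hδ']
    field_simp
  have hF : y0 ^ 2 + W.a₁ * x0 * y0 + W.a₃ * y0 - (x0 ^ 3 + W.a₂ * x0 ^ 2 + W.a₄ * x0 + W.a₆) =
      π ^ 2 * u := by
    apply mul_left_cancel₀ c46
    rw [g3, hu, hδ']
    field_simp
  obtain ⟨X, Y, iX, iY, hE⟩ := hsol (W.a₁ : k) (3 * x0 + W.a₂) u al be b1
    (w_add (w_mul n3 ix0) b2) iu ial ibe (by
      have e : (W.a₁ : k) ^ 2 + 4 * (3 * x0 + W.a₂) = 12 * x0 + W.b₂ := by rw [c2]; ring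
      rw [e]; exact iD)
  exact ex_pt0 hπ hπ0 hW ix0 iy0 hFx hFy hF ial ibe iu iD ic4 hx iX iY hE

end Pool.Agent.K4H12.M53
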