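import Mathlib

/-!
# Newton's method for cubic polynomials in complete valued fields
-/

set_option autoImplicit false
set_option linter.all false

open WithZero Filter Topology

namespace Pool.Agent.K4H12.M53

section

variable {L : Type*} [Field L] [Valued L (WithZero (Multiplicative ℤ))]

theorem nonarch : NonarchimedeanAddGroup L where
  is_nonarchimedean U hU := by
    obtain ⟨γ, hγ⟩ := Valued.mem_nhds_zero.1 hU
    refine ⟨⟨Valuation.ltAddSubgroup (Valued.v (R := L)).restrict γ, ?_⟩, ?_⟩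
    · exact Valued.isOpen_ball L γ.1
    · intro x hx
      exact hγ hx

theorem v_add {x y : L} {c : WithZero (Multiplicative ℤ)} (hx : Valued.v x ≤ c)
    (hy : Valued.v y ≤ c) : Valued.v (x + y) ≤ c :=
  (Valuation.map_add _ _ _).trans (max_le hx hy)

theorem v_sub {x y : L} {c : WithZero (Multiplicative ℤ)} (hx : Valued.v x ≤ c)
    (hy : Valued.v y ≤ c) : Valued.v (x - y) ≤ c :=
  (Valuation.map_sub _ _ _).trans (max_le hx hy)

theorem v_mul {x y : L} (hx : Valued.v x ≤ (1 : WithZero (Multiplicative ℤ)))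
    (hy : Valued.v y ≤ (1 : WithZero (Multiplicative ℤ))) :
    Valued.v (x * y) ≤ (1 : WithZero (Multiplicative ℤ)) := by
  rw [map_mul]; exact mul_le_one' hx hy

theorem v_nat (n : ℕ) : Valued.v (n : L) ≤ (1 : WithZero (Multiplicative ℤ)) := by
  have h : (n : L) ∈ (Valued.v (R := L)).valuationSubring := natCast_mem _ n
  exact h

/-- Hensel's lemma for cubic polynomials -/
theorem newton [CompleteSpace L] [T0Space L] {c3 c2 c1 c0 z0 : L}
    (i3 : Valued.v c3 ≤ 1) (i2 : Valued.v c2 ≤ 1) (i1 : Valued.v c1 ≤ 1) (i0 : Valued.v c0 ≤ 1)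
    (iz : Valued.v z0 ≤ 1) (h1 : Valued.v (c3 * z0 ^ 3 + c2 * z0 ^ 2 + c1 * z0 + c0) < 1)
    (h2 : Valued.v (3 * c3 * z0 ^ 2 + 2 * c2 * z0 + c1) = 1) :
    ∃ z : L, Valued.v z ≤ 1 ∧ c3 * z ^ 3 + c2 * z ^ 2 + c1 * z + c0 = 0 := by
  set h : L → L := fun z => c3 * z ^ 3 + c2 * z ^ 2 + c1 * z + c0 with hh
  set d : L := 3 * c3 * z0 ^ 2 + 2 * c2 * z0 + c1 with hd
  have hd0 : d ≠ 0 := by
    intro e
    rw [e, map_zero] at h2
    exact zero_ne_one h2
  have n2 : Valued.v (2 : L) ≤ (1 : WithZero (Multiplicative ℤ)) := by exact_mod_cast v_nat 2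
  have n3 : Valued.v (3 : L) ≤ (1 : WithZero (Multiplicative ℤ)) := by exact_mod_cast v_nat 3
  let T : L → L := fun z => z - h z / d
  obtain ⟨z, zz0, zs⟩ : ∃ z : ℕ → L, z 0 = z0 ∧ ∀ n, z (n + 1) = T (z n) :=
    ⟨fun n => Nat.rec z0 (fun _ y => T y) n, rfl, fun _ => rfl⟩
  set e0 : L := h z0 with he0
  set δ := Valued.v e0 with hδ
  have hδ1 : δ < 1 := h1
  have hT : ∀ y y' : L, Valued.v (y - z0) ≤ δ → Valued.v (y' - z0) ≤ δ →
      Valued.v (T y - T y') ≤ δ * Valued.v (y - y') := by
    intro y y' hy hy'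
    have e : T y - T y' = -(((3 * c3 * z0 + c2) * ((y - z0) + (y' - z0)) +
        c3 * ((y - z0) ^ 2 + (y - z0) * (y' - z0) + (y' - z0) ^ 2)) / d) * (y - y') := by
      simp only [T, hh]
      field_simp
      rw [hd]
      ring
    rw [e, map_mul, Valuation.map_neg, map_div₀, h2, div_one]
    refine mul_le_mul_left ?_ _
    have j1 : Valued.v ((y - z0) + (y' - z0)) ≤ δ := v_add hy hy'
    have j2 : Valued.v (3 * c3 * z0 + c2) ≤ (1 : WithZero (Multiplicative ℤ)) :=
      v_add (v_mul (v_mul n3 i3) iz) i2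
    have j3 : ∀ s t : L, Valued.v s ≤ δ → Valued.v t ≤ δ → Valued.v (s * t) ≤ δ := by
      intro s t hs ht
      rw [map_mul]
      exact (mul_le_of_le_one_right' (ht.trans hδ1.le)).trans hs
    refine v_add ?_ ?_
    · rw [map_mul]
      exact (mul_le_of_le_one_left' j2).trans j1
    · rw [map_mul]
      refine (mul_le_of_le_one_left' i3).trans ?_
      refine v_add (v_add ?_ (j3 _ _ hy hy')) ?_
      · rw [pow_two]; exact j3 _ _ hy hy
      · rw [pow_two]; exact j3 _ _ hy' hy'
  have hT0 : Valued.v (T z0 - z0) ≤ δ := by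
    have e : T z0 - z0 = -(h z0 / d) := by simp only [T]; ring
    rw [e, Valuation.map_neg, map_div₀, h2, div_one]
  have hA : ∀ n, Valued.v (z n - z0) ≤ δ := by
    intro n
    induction n with
    | zero => rw [zz0, sub_self, map_zero]; exact zero_le
    | succ n ih =>
      have h4 : Valued.v (z0 - z0) ≤ δ := by rw [sub_self, map_zero]; exact zero_le
      have h3 := hT (z n) z0 ih h4
      have e : z (n + 1) - z0 = (T (z n) - T z0) + (T z0 - z0) := by rw [zs]; ring
      rw [e]
      refine v_add ?_ hT0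
      refine h3.trans ?_
      exact mul_le_of_le_one_right' (ih.trans hδ1.le)
  have hB : ∀ n, Valued.v (z (n + 1) - z n) ≤ Valued.v (e0 ^ (n + 1)) := by
    intro n
    induction n with
    | zero =>
      rw [zero_add, pow_one, zs, zz0]
      exact hT0
    | succ n ih =>
      have h3 := hT (z (n + 1)) (z n) (hA _) (hA _)
      rw [← zs, ← zs] at h3
      refine h3.trans ?_
      rw [pow_succ' e0, map_mul]
      exact mul_le_mul_right ih _
  haveI := nonarch (L := L)
  have hlim : Tendsto (fun n => z (n + 1) - z n) atTop (𝓝 0) := by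
    have h3 : Tendsto (fun n : ℕ => e0 ^ (n + 1)) atTop (𝓝 0) :=
      (Valued.tendsto_zero_pow_of_v_lt_one hδ1).comp (tendsto_add_atTop_nat 1)
    rw [(Valued.hasBasis_nhds_zero L _).tendsto_right_iff] at h3 ⊢
    intro γ hγ
    filter_upwards [h3 γ hγ] with n hn
    have h4 : (Valued.v (R := L)).restrict (z (n + 1) - z n) ≤
        (Valued.v (R := L)).restrict (e0 ^ (n + 1)) :=
      (Valuation.restrict_le_iff _).2 (hB n)
    exact lt_of_le_of_lt h4 hn
  have hcau : CauchySeq z := NonarchimedeanAddGroup.cauchySeq_of_tendsto_sub_nhds_zero hlim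
  obtain ⟨w, hw⟩ := cauchySeq_tendsto_of_complete hcau
  have hTc : Continuous T := by
    have : Continuous fun y : L => y - (c3 * y ^ 3 + c2 * y ^ 2 + c1 * y + c0) * d⁻¹ := by fun_prop
    simpa only [T, hh, div_eq_mul_inv] using this
  have hw1 : Tendsto (fun n => z (n + 1)) atTop (𝓝 w) := hw.comp (tendsto_add_atTop_nat 1)
  have hw2 : Tendsto (fun n => z (n + 1)) atTop (𝓝 (T w)) := by
    simp only [zs]
    exact (hTc.tendsto w).comp hw
  haveI : T2Space L := inferInstance
  have hfix : T w = w := tendsto_nhds_unique hw2 hw1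
  refine ⟨w, ?_, ?_⟩
  · have hcl : IsClosed {y : L | (Valued.v (R := L)).restrict (y - z0) < 1} := by
      have h7 := Valued.isClosed_ball L (1 : MonoidWithZeroHom.ValueGroup₀
        (.ofClass (Valued.v (R := L))))
      exact h7.preimage (f := fun y : L => y - z0) (by fun_prop)
    have h8 : w ∈ {y : L | (Valued.v (R := L)).restrict (y - z0) < 1} := by
      refine hcl.mem_of_tendsto hw (Eventually.of_forall fun n => ?_)
      show (Valued.v (R := L)).restrict (z n - z0) < 1
      rw [Valuation.restrict_lt_one_iff]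
      exact lt_of_le_of_lt (hA n) hδ1
    have h9 : (Valued.v (R := L)).restrict (w - z0) < 1 := h8
    rw [Valuation.restrict_lt_one_iff] at h9
    have e : w = (w - z0) + z0 := by ring
    rw [e]
    exact v_add h9.le iz
  · have h5 : h w / d = 0 := by
      have h6 : w - h w / d = w := hfix
      linear_combination -h6
    rcases div_eq_zero_iff.1 h5 with h6 | h6
    · exact h6
    · exact absurd h6 hd0

end

end Pool.Agent.K4H12.M53
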